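import Pool.Agent.ANI.Stmts
import Pool.Agent.Helper88_LQF.FRB
import Pool.Agent.Helper46_LQD.BKT

/-!
# Row ani:PRD, decay of the free resolvent
-/

set_option autoImplicit false

open MeasureTheory ProbabilityTheory Function Filter

open scoped ENNReal BigOperators Topology NNReal ComplexOrder Matrix

noncomputable section

namespace Pool.Agent.ANI.H21

open Pool.Agent.Anderson hiding box mem_box card_box
open Pool.Agent.Loc Pool.Agent.Mob Pool.Agent.Helper54.Bal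
  Pool.Agent.Helper96.EXP Pool.Agent.BED
open Pool.Agent.LE Pool.Agent.LE.MN Pool.Agent.LE.CL Pool.Agent.LE.IR Pool.Agent.LE.QD
  Pool.Agent.LE.QF
open Pool.Agent.LE.QF.H88 (kn kn_cont kp_cont kn_le mean_le es_sub_norm one_div_eq)

variable {d M : ℕ} [NeZero M]

/-- the resolvent as an integral up to the time `T₀` -/
theorem rs_eq (ral : QD.RalStmt) {z : ℂ} (hz : 0 < z.im) (x y : Tor d M) (T₀ : ℝ) :
    rs (0 : Tor d M → ℝ) z x y =
      Complex.I * (∫ t in (0 : ℝ)..T₀, Complex.exp (Complex.I * z * t) * kn (x - y) t) +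
      (∑ p, ec p (x - y) * (Complex.exp (-(Complex.I * ((es p : ℂ) - z) * T₀)) /
        ((es p : ℂ) - z))) / (M : ℂ) ^ d := by
  obtain ⟨-, -, -, -, -, -, -, -, -, -, hfree, -⟩ := ral d M (0 : Tor d M → ℝ) z hz
  rw [hfree x y]
  have h4 : (∫ t in (0 : ℝ)..T₀, Complex.exp (Complex.I * z * t) * kn (x - y) t) =
      (∑ p, ec p (x - y) * ∫ t in (0 : ℝ)..T₀, Complex.exp (Complex.I * z * t) *
        Complex.exp (-(Complex.I * ((t * es p : ℝ) : ℂ)))) / (M : ℂ) ^ d := by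
    have h5 : ∀ p : Tor d M, (ec p (x - y) * ∫ t in (0 : ℝ)..T₀,
        Complex.exp (Complex.I * z * t) *
        Complex.exp (-(Complex.I * ((t * es p : ℝ) : ℂ)))) =
        ∫ t in (0 : ℝ)..T₀, ec p (x - y) * (Complex.exp (Complex.I * z * t) *
        Complex.exp (-(Complex.I * ((t * es p : ℝ) : ℂ)))) :=
      fun p => (intervalIntegral.integral_const_mul _ _).symm
    rw [Finset.sum_congr rfl fun p _ => h5 p, ← intervalIntegral.integral_finsetSum,
      ← intervalIntegral.integral_div]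
    · refine intervalIntegral.integral_congr fun t _ => ?_
      simp only [kn]
      rw [← mul_div_assoc, Finset.mul_sum]
      congr 1
      exact Finset.sum_congr rfl fun p _ => by ring
    · intro p _
      exact Continuous.intervalIntegrable (by fun_prop) _ _
  rw [h4, ← mul_div_assoc, ← add_div, Finset.mul_sum, ← Finset.sum_add_distrib]
  congr 1
  refine Finset.sum_congr rfl fun p _ => ?_
  have h5 := one_div_eq hz (es p) T₀
  rw [div_eq_mul_one_div, h5]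
  ring

theorem rs_le (ral : QD.RalStmt) {z : ℂ} (hz : 0 < z.im) (x y : Tor d M) {T₀ : ℝ}
    (hT : 0 ≤ T₀) : ‖rs (0 : Tor d M → ℝ) z x y‖ ≤
      (∫ t in (0 : ℝ)..T₀, ‖kn (x - y) t‖) + Real.exp (-(z.im * T₀)) / z.im := by
  rw [rs_eq ral hz x y T₀]
  have h4 : ‖Complex.I * (∫ t in (0 : ℝ)..T₀, Complex.exp (Complex.I * z * t) *
      kn (x - y) t)‖ ≤ ∫ t in (0 : ℝ)..T₀, ‖kn (x - y) t‖ := by
    rw [norm_mul, Complex.norm_I, one_mul]
    apply intervalIntegral.norm_integral_le_of_norm_le hT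
    · refine Filter.Eventually.of_forall fun t ht => ?_
      rw [norm_mul]
      have h6 : ‖Complex.exp (Complex.I * z * t)‖ ≤ 1 := by
        rw [Complex.norm_exp]
        rw [Real.exp_le_one_iff]
        have h7 : (Complex.I * z * t).re = -(z.im * t) := by
          simp
        rw [h7]
        have := ht.1
        have : 0 ≤ z.im * t := mul_nonneg hz.le this.le
        linarith
      calc ‖Complex.exp (Complex.I * z * t)‖ * ‖kn (x - y) t‖ ≤ 1 * ‖kn (x - y) t‖ := by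
            gcongr
        _ = _ := one_mul _
    · exact (kn_cont _).norm.intervalIntegrable _ _
  have h5 : ‖(∑ p, ec p (x - y) * (Complex.exp (-(Complex.I * ((es p : ℂ) - z) * T₀)) /
        ((es p : ℂ) - z))) / (M : ℂ) ^ d‖ ≤ Real.exp (-(z.im * T₀)) / z.im := by
    apply mean_le
    intro p
    rw [norm_mul, Pool.Agent.LE.IR.H54.ec_norm, one_mul, norm_div]
    have h6 : ‖Complex.exp (-(Complex.I * ((es p : ℂ) - z) * T₀))‖ =
        Real.exp (-(z.im * T₀)) := by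
      rw [Complex.norm_exp]
      congr 1
      simp
    rw [h6]
    have h7 := es_sub_norm hz (es p)
    gcongr
  exact (norm_add_le _ _).trans (add_le_add h4 h5)

/-- the kernel for small times -/
theorem kn_small (smt : SmtStmt) (y : Tor d M) (i : Fin d) {t : ℝ} (ht0 : 0 ≤ t)
    (ht : 12 * t ≤ ((y i).valMinAbs.natAbs : ℝ)) :
    ‖kn y t‖ ≤ 2 * (1 / 2) ^ (y i).valMinAbs.natAbs := by
  have h1 : kn y t = ∏ j, jt M (-t) (y j) := by
    rw [← Pool.Agent.LE.QD.H46.kernel_eq]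
    unfold kn
    congr 1
    refine Finset.sum_congr rfl fun p _ => ?_
    congr 2
    push_cast
    ring
  rw [h1, norm_prod, ← Finset.mul_prod_erase _ _ (Finset.mem_univ i)]
  have h2 : ∏ j ∈ Finset.univ.erase i, ‖jt M (-t) (y j)‖ ≤ 1 :=
    Finset.prod_le_one (fun j _ => norm_nonneg _)
      (fun j _ => Pool.Agent.LE.QD.H46.norm_jt_le M (-t) (y j))
  have h3 := smt M (-t) (y i) (by rw [abs_neg, abs_of_nonneg ht0]; exact ht)
  calc ‖jt M (-t) (y i)‖ * ∏ j ∈ Finset.univ.erase i, ‖jt M (-t) (y j)‖ ≤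
      ‖jt M (-t) (y i)‖ * 1 := by gcongr
    _ ≤ _ := by rw [mul_one]; exact h3

theorem pow_sixth (k : ℕ) : ((2 : ℝ) ^ k) ^ (-(1 / 6 : ℝ)) ≤ (9 / 10) ^ k := by
  have h5 : ((2 : ℝ) ^ k) ^ (-(1 / 6 : ℝ)) = ((2 : ℝ) ^ (-(1 / 6 : ℝ))) ^ k := by
    rw [← Real.rpow_natCast, ← Real.rpow_mul (by norm_num), mul_comm,
      Real.rpow_mul (by norm_num), Real.rpow_natCast]
  rw [h5]
  have h6 : (2 : ℝ) ^ (-(1 / 6 : ℝ)) ≤ 9 / 10 := by
    have h7 : (2 : ℝ) ^ (-(1 / 6 : ℝ)) = (1 / 2 : ℝ) ^ (1 / 6 : ℝ) := by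
      rw [Real.rpow_neg (by norm_num), ← Real.inv_rpow (by norm_num)]
      congr 1
      norm_num
    rw [h7]
    have h8 : ((9 / 10 : ℝ) ^ 6) ^ (1 / 6 : ℝ) = 9 / 10 := by
      rw [← Real.rpow_natCast, ← Real.rpow_mul (by norm_num)]
      norm_num
    rw [← h8]
    apply Real.rpow_le_rpow (by norm_num) (by norm_num) (by norm_num)
  gcongr

theorem geo10 (J : ℕ) : ∑ j ∈ Finset.range J, (9 / 10 : ℝ) ^ j ≤ 10 := by
  have h : ∑ j ∈ Finset.range J, (9 / 10 : ℝ) ^ j = 10 - 10 * (9 / 10 : ℝ) ^ J := by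
    induction J with
    | zero => norm_num
    | succ n ih =>
      rw [Finset.sum_range_succ, ih, pow_succ]
      ring
  rw [h]
  have : (0 : ℝ) ≤ 10 * (9 / 10 : ℝ) ^ J := by positivity
  linarith

theorem blk {Cb : ℝ} (hCb : 1 ≤ Cb) (y : Tor d M)
    (hb : ∀ (T : ℝ), 1 ≤ T → 2 * T ≤ M / 40 → ∫ t in T..2 * T,
        (‖(∑ p, ec p y * Complex.exp (Complex.I * ((t * es p : ℝ) : ℂ))) / (M : ℂ) ^ d‖ +
          ‖(∑ p, ec p y * Complex.exp (-(Complex.I * ((t * es p : ℝ) : ℂ)))) / (M : ℂ) ^ d‖) ≤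
        Cb * T ^ (-(1 / 3 : ℝ)) * (1 + Real.log T)) {T : ℝ} (hT : 1 ≤ T) (hT2 : 2 * T ≤ M / 40) :
    ∫ t in T..2 * T, ‖kn y t‖ ≤ 7 * Cb * T ^ (-(1 / 6 : ℝ)) := by
  have hc : Continuous fun t => ‖kn y t‖ := (kn_cont y).norm
  have hT0 : 0 < T := by linarith
  have h8 : ∫ t in T..2 * T, ‖kn y t‖ ≤ ∫ t in T..2 * T,
      (‖(∑ p, ec p y * Complex.exp (Complex.I * ((t * es p : ℝ) : ℂ))) / (M : ℂ) ^ d‖ +
        ‖(∑ p, ec p y * Complex.exp (-(Complex.I * ((t * es p : ℝ) : ℂ)))) /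
          (M : ℂ) ^ d‖) := by
    refine intervalIntegral.integral_mono_on (by linarith) (hc.intervalIntegrable _ _)
      (((kp_cont y).norm.add hc).intervalIntegrable _ _) fun t _ => ?_
    exact le_add_of_nonneg_left (norm_nonneg _)
  refine h8.trans ((hb T hT hT2).trans ?_)
  have h9 : 1 + Real.log T ≤ 7 * T ^ (1 / 6 : ℝ) := by
    have h10 := Real.log_le_rpow_div hT0.le (ε := 1 / 6) (by norm_num)
    have h11 : (1 : ℝ) ≤ T ^ (1 / 6 : ℝ) := Real.one_le_rpow hT (by norm_num)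
    have h12 : T ^ (1 / 6 : ℝ) / (1 / 6) = 6 * T ^ (1 / 6 : ℝ) := by ring
    rw [h12] at h10
    linarith
  calc Cb * T ^ (-(1 / 3 : ℝ)) * (1 + Real.log T) ≤
      Cb * T ^ (-(1 / 3 : ℝ)) * (7 * T ^ (1 / 6 : ℝ)) := by gcongr
    _ = 7 * Cb * (T ^ (-(1 / 3 : ℝ)) * T ^ (1 / 6 : ℝ)) := by ring
    _ = 7 * Cb * T ^ (-(1 / 6 : ℝ)) := by
      rw [← Real.rpow_add hT0]
      norm_num

theorem blks {Cb : ℝ} (hCb : 1 ≤ Cb) (y : Tor d M)
    (hb : ∀ (T : ℝ), 1 ≤ T → 2 * T ≤ M / 40 → ∫ t in T..2 * T,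
        (‖(∑ p, ec p y * Complex.exp (Complex.I * ((t * es p : ℝ) : ℂ))) / (M : ℂ) ^ d‖ +
          ‖(∑ p, ec p y * Complex.exp (-(Complex.I * ((t * es p : ℝ) : ℂ)))) / (M : ℂ) ^ d‖) ≤
        Cb * T ^ (-(1 / 3 : ℝ)) * (1 + Real.log T)) {A : ℝ} (hA : 1 ≤ A) {J : ℕ}
    (hJ : A * 2 ^ J ≤ M / 40) :
    ∫ t in A..A * 2 ^ J, ‖kn y t‖ ≤ 70 * Cb * A ^ (-(1 / 6 : ℝ)) := by
  have hc : Continuous fun t => ‖kn y t‖ := (kn_cont y).norm
  have hA0 : 0 < A := by linarith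
  have h4 : ∫ t in A..A * 2 ^ J, ‖kn y t‖ =
      ∑ k ∈ Finset.range J, ∫ t in A * (2 : ℝ) ^ k..A * (2 : ℝ) ^ (k + 1), ‖kn y t‖ := by
    rw [intervalIntegral.sum_integral_adjacent_intervals (a := fun k => A * (2 : ℝ) ^ k)
      (fun k _ => hc.intervalIntegrable _ _)]
    rw [pow_zero, mul_one]
  rw [h4]
  have h5 : ∀ k ∈ Finset.range J, ∫ t in A * (2 : ℝ) ^ k..A * (2 : ℝ) ^ (k + 1), ‖kn y t‖ ≤
      7 * Cb * A ^ (-(1 / 6 : ℝ)) * (9 / 10) ^ k := by
    intro k hk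
    rw [Finset.mem_range] at hk
    have hk1 : (1 : ℝ) ≤ 2 ^ k := one_le_pow₀ (by norm_num)
    have h7 : A * (2 : ℝ) ^ (k + 1) = 2 * (A * 2 ^ k) := by
      rw [pow_succ]
      ring
    have hk2 : (2 : ℝ) * (A * 2 ^ k) ≤ M / 40 := by
      rw [← h7]
      refine le_trans ?_ hJ
      have : (2 : ℝ) ^ (k + 1) ≤ 2 ^ J := pow_le_pow_right₀ (by norm_num) hk
      gcongr
    have h6 := blk hCb y hb (one_le_mul_of_one_le_of_one_le hA hk1) hk2
    rw [h7]
    refine h6.trans ?_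
    rw [Real.mul_rpow hA0.le (by positivity)]
    have h8 := pow_sixth k
    have h9 : 0 ≤ A ^ (-(1 / 6 : ℝ)) := by positivity
    calc 7 * Cb * (A ^ (-(1 / 6 : ℝ)) * ((2 : ℝ) ^ k) ^ (-(1 / 6 : ℝ))) ≤
        7 * Cb * (A ^ (-(1 / 6 : ℝ)) * (9 / 10) ^ k) := by gcongr
      _ = _ := by ring
  refine (Finset.sum_le_sum h5).trans ?_
  rw [← Finset.mul_sum]
  have h6 := geo10 J
  have h9 : 0 ≤ 7 * Cb * A ^ (-(1 / 6 : ℝ)) := by positivity
  calc 7 * Cb * A ^ (-(1 / 6 : ℝ)) * ∑ j ∈ Finset.range J, (9 / 10 : ℝ) ^ j ≤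
      7 * Cb * A ^ (-(1 / 6 : ℝ)) * 10 := by gcongr
    _ = _ := by ring

theorem tail3 {w m T : ℝ} (hw : 0 < w) (hm : 0 < m) (h : 1 ≤ w ^ 2 * m) (hT : m / 80 ≤ T) :
    Real.exp (-(w * T)) / w ≤ 3072000 / m := by
  have h1 : Real.exp (-(w * T)) ≤ Real.exp (-(w * (m / 80))) := by
    apply Real.exp_le_exp.2
    have : w * (m / 80) ≤ w * T := by gcongr
    linarith
  have hx : 0 < w * (m / 80) := by positivity
  have h2 := Real.pow_div_factorial_le_exp (w * (m / 80)) hx.le 3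
  have h3 : (Nat.factorial 3 : ℝ) = 6 := by norm_num [Nat.factorial]
  rw [h3] at h2
  have h4 : Real.exp (-(w * (m / 80))) ≤ 6 / (w * (m / 80)) ^ 3 := by
    rw [Real.exp_neg, inv_eq_one_div, div_le_div_iff₀ (Real.exp_pos _) (by positivity)]
    have h5 : (w * (m / 80)) ^ 3 ≤ 6 * Real.exp (w * (m / 80)) := by linarith
    linarith
  have h5 : Real.exp (-(w * T)) / w ≤ 6 / (w * (m / 80)) ^ 3 / w := by
    have := h1.trans h4
    gcongr
  refine h5.trans ?_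
  rw [div_div, div_le_div_iff₀ (by positivity) hm]
  have h6 : (1 : ℝ) ≤ (w ^ 2 * m) ^ 2 := one_le_pow₀ h
  have h7 : 3072000 * ((w * (m / 80)) ^ 3 * w) = 6 * ((w ^ 2 * m) ^ 2 * m) := by ring
  rw [h7]
  have h8 : m ≤ (w ^ 2 * m) ^ 2 * m := by nlinarith
  linarith

theorem two_pow_ge (k : ℕ) : k * (k + 1) ≤ 6 * 2 ^ k := by
  induction k with
  | zero => norm_num
  | succ n ih =>
    have h1 : n + 1 ≤ 2 ^ n := Nat.lt_two_pow_self
    rw [pow_succ]
    nlinarith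

/-- PRD -/
theorem prd (smt : SmtStmt) (bkt : QD.BktStmt) (ral : QD.RalStmt) (frb : QF.FrbStmt) :
    PrdStmt := by
  intro d hd
  obtain ⟨Cb, hCb, hb⟩ := bkt d hd
  obtain ⟨Cf, hCf, hf⟩ := frb d hd
  refine ⟨2 * Cf + 140 * Cb + 3072001, by linarith, fun M _ z hz hz1 hM x y i => ?_⟩
  set C : ℝ := 2 * Cf + 140 * Cb + 3072001 with hC
  set k : ℕ := ((x - y) i).valMinAbs.natAbs with hk
  have hw2 : 0 < z.im ^ 2 := by positivity
  have hMf : Cf / z.im ^ 2 ≤ M := by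
    refine le_trans ?_ hM
    apply div_le_div_of_nonneg_right _ hw2.le
    linarith
  have hMw : 1 ≤ z.im ^ 2 * M := by
    rw [div_le_iff₀ hw2] at hM
    have : (1 : ℝ) ≤ C := by linarith
    linarith
  have hM0 : (0 : ℝ) < M := by exact_mod_cast Nat.pos_of_ne_zero (NeZero.ne M)
  have hk1 : (0 : ℝ) < 1 + (k : ℝ) := by positivity
  have hu0 : 0 < (1 + (k : ℝ)) ^ (-(1 / 6 : ℝ)) := by positivity
  rcases lt_or_ge k 24 with hlt | hge
  · -- small distances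
    have h1 := (hf M z hz hz1 hMf x).1 y
    have h2 : (1 : ℝ) ≤ 2 * (1 + (k : ℝ)) ^ (-(1 / 6 : ℝ)) := by
      have h3 : (1 + (k : ℝ)) ≤ 2 ^ 6 := by
        have : (k : ℝ) ≤ 24 := by exact_mod_cast hlt.le
        linarith
      have h4 : (1 + (k : ℝ)) ^ (1 / 6 : ℝ) ≤ 2 := by
        have h5 : ((2 : ℝ) ^ 6) ^ (1 / 6 : ℝ) = 2 := by
          rw [← Real.rpow_natCast, ← Real.rpow_mul (by norm_num)]
          norm_num
        rw [← h5]
        exact Real.rpow_le_rpow hk1.le h3 (by norm_num)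
      rw [Real.rpow_neg hk1.le, ← div_eq_mul_inv, le_div_iff₀ (by positivity), one_mul]
      exact h4
    calc ‖rs (0 : Tor d M → ℝ) z x y‖ ≤ Cf * 1 := by rw [mul_one]; exact h1
      _ ≤ Cf * (2 * (1 + (k : ℝ)) ^ (-(1 / 6 : ℝ))) := by gcongr
      _ = 2 * Cf * (1 + (k : ℝ)) ^ (-(1 / 6 : ℝ)) := by ring
      _ ≤ _ := by
        apply mul_le_mul_of_nonneg_right _ hu0.le
        linarith
  · -- large distances
    have hkr : (24 : ℝ) ≤ k := by exact_mod_cast hge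
    have hkM : (k : ℝ) ≤ M / 2 := by
      have h1 : k ≤ M / 2 := ZMod.natAbs_valMinAbs_le _
      have h2 : k * 2 ≤ M := by omega
      have h3 : (k : ℝ) * 2 ≤ M := by exact_mod_cast h2
      linarith
    obtain ⟨A, hA⟩ : ∃ A : ℝ, A = k / 12 := ⟨_, rfl⟩
    have hA2 : 2 ≤ A := by
      rw [hA]
      linarith
    -- `1 / (1 + k)` against the power
    have hinv : (1 + (k : ℝ))⁻¹ ≤ (1 + (k : ℝ)) ^ (-(1 / 6 : ℝ)) := by
      rw [← Real.rpow_neg_one]
      exact Real.rpow_le_rpow_of_exponent_le (by linarith) (by norm_num)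
    have hc : Continuous fun t => ‖kn (x - y) t‖ := (kn_cont (x - y)).norm
    -- the first part of the integral
    have hfirst : ∀ T : ℝ, 0 ≤ T → T ≤ A → ∫ t in (0 : ℝ)..T, ‖kn (x - y) t‖ ≤
        (1 + (k : ℝ)) ^ (-(1 / 6 : ℝ)) := by
      intro T hT hTA
      have h1 : ∫ t in (0 : ℝ)..T, ‖kn (x - y) t‖ ≤ ∫ t in (0 : ℝ)..T, (2 * (1 / 2) ^ k : ℝ) := by
        refine intervalIntegral.integral_mono_on hT (hc.intervalIntegrable _ _)
          (by simp) fun t ht => ?_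
        refine kn_small smt (x - y) i ht.1 ?_
        rw [← hk]
        have := ht.2
        rw [hA] at hTA
        linarith
      refine h1.trans ?_
      rw [intervalIntegral.integral_const, smul_eq_mul, sub_zero]
      refine le_trans ?_ hinv
      have h2 : (k : ℝ) * (k + 1) ≤ 6 * 2 ^ k := by exact_mod_cast two_pow_ge k
      have h3 : (0 : ℝ) < (1 / 2) ^ k := by positivity
      have h4 : ((1 : ℝ) / 2) ^ k * 2 ^ k = 1 := by
        rw [← mul_pow]
        norm_num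
      rw [inv_eq_one_div, le_div_iff₀ hk1]
      calc T * (2 * (1 / 2) ^ k) * (1 + (k : ℝ)) ≤ A * (2 * (1 / 2) ^ k) * (1 + (k : ℝ)) := by
            gcongr
        _ = (k * (k + 1)) * (1 / 2) ^ k / 6 := by
          rw [hA]
          ring
        _ ≤ (6 * 2 ^ k) * (1 / 2) ^ k / 6 := by gcongr
        _ = (1 / 2) ^ k * 2 ^ k := by ring
        _ = 1 := h4
    -- the tail
    have htail : ∀ T : ℝ, (M : ℝ) / 80 ≤ T → Real.exp (-(z.im * T)) / z.im ≤
        3072000 * (1 + (k : ℝ)) ^ (-(1 / 6 : ℝ)) := by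
      intro T hT
      refine (tail3 hz hM0 hMw hT).trans ?_
      have h1 : (3072000 : ℝ) / M ≤ 3072000 / (1 + (k : ℝ)) := by
        apply div_le_div_of_nonneg_left (by norm_num) hk1
        linarith
      refine h1.trans ?_
      rw [div_eq_mul_inv]
      gcongr
    rcases le_or_gt A (M / 40) with hAM | hAM
    · obtain ⟨J, hJ1, hJ2⟩ := exists_nat_pow_near (x := (M : ℝ) / 40 / A) (y := 2)
        (by rw [le_div_iff₀ (by linarith), one_mul]; exact hAM) (by norm_num)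
      have hA0 : 0 < A := by linarith
      rw [le_div_iff₀ hA0] at hJ1
      rw [div_lt_iff₀ hA0] at hJ2
      have hJ1' : A * 2 ^ J ≤ M / 40 := by
        rw [mul_comm]
        exact hJ1
      have hJ2' : (M : ℝ) / 80 ≤ A * 2 ^ J := by
        rw [pow_succ] at hJ2
        linarith
      have hT0 : 0 ≤ A * 2 ^ J := by positivity
      have h1 := rs_le ral hz x y hT0
      have h2 : ∫ t in (0 : ℝ)..A * 2 ^ J, ‖kn (x - y) t‖ =
          (∫ t in (0 : ℝ)..A, ‖kn (x - y) t‖) + ∫ t in A..A * 2 ^ J, ‖kn (x - y) t‖ :=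
        (intervalIntegral.integral_add_adjacent_intervals (hc.intervalIntegrable _ _)
          (hc.intervalIntegrable _ _)).symm
      have h3 := hfirst A hA0.le le_rfl
      have h4 := blks hCb (x - y) (fun T => hb M T (x - y)) (by linarith : (1 : ℝ) ≤ A) hJ1'
      have h5 := htail _ hJ2'
      have h6 : A ^ (-(1 / 6 : ℝ)) ≤ 2 * (1 + (k : ℝ)) ^ (-(1 / 6 : ℝ)) := by
        have h7 : (1 + (k : ℝ)) / 2 ^ 6 ≤ A := by
          rw [hA]
          linarith
        have h8 : A ^ (-(1 / 6 : ℝ)) ≤ ((1 + (k : ℝ)) / 2 ^ 6) ^ (-(1 / 6 : ℝ)) :=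
          Real.rpow_le_rpow_of_nonpos (by positivity) h7 (by norm_num)
        refine h8.trans (le_of_eq ?_)
        rw [Real.div_rpow hk1.le (by positivity), div_eq_mul_inv, mul_comm]
        congr 1
        rw [← Real.rpow_neg (by positivity), ← Real.rpow_natCast, ← Real.rpow_mul (by norm_num)]
        norm_num
      have h7 : 70 * Cb * A ^ (-(1 / 6 : ℝ)) ≤ 140 * Cb * (1 + (k : ℝ)) ^ (-(1 / 6 : ℝ)) := by
        calc 70 * Cb * A ^ (-(1 / 6 : ℝ)) ≤ 70 * Cb * (2 * (1 + (k : ℝ)) ^ (-(1 / 6 : ℝ))) := by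
              gcongr
          _ = _ := by ring
      rw [h2] at h1
      have h8 : 0 ≤ 2 * Cf * (1 + (k : ℝ)) ^ (-(1 / 6 : ℝ)) := by positivity
      calc ‖rs (0 : Tor d M → ℝ) z x y‖ ≤ _ := h1
        _ ≤ (1 + (k : ℝ)) ^ (-(1 / 6 : ℝ)) + 140 * Cb * (1 + (k : ℝ)) ^ (-(1 / 6 : ℝ)) +
            3072000 * (1 + (k : ℝ)) ^ (-(1 / 6 : ℝ)) :=
          add_le_add (add_le_add h3 (h4.trans h7)) h5
        _ ≤ _ := by
          rw [hC]
          linarith
    · have hT0 : (0 : ℝ) ≤ M / 40 := by positivity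
      have h1 := rs_le ral hz x y hT0
      have h3 := hfirst (M / 40) hT0 hAM.le
      have h5 := htail (M / 40) (by linarith)
      have h8 : 0 ≤ (2 * Cf + 140 * Cb) * (1 + (k : ℝ)) ^ (-(1 / 6 : ℝ)) := by positivity
      calc ‖rs (0 : Tor d M → ℝ) z x y‖ ≤ _ := h1
        _ ≤ (1 + (k : ℝ)) ^ (-(1 / 6 : ℝ)) + 3072000 * (1 + (k : ℝ)) ^ (-(1 / 6 : ℝ)) :=
          add_le_add h3 h5
        _ ≤ _ := by
          rw [hC]
          linarith

end Pool.Agent.ANI.H21
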